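import Pool.Agent.Q287.LG.Num

/-!
# MP_383407_pr, Q1: the occupation time of the symmetric line growth is `O(p^(-(r-1)))`

For every threshold `r ≥ 3` and every radius `ρ ≥ r`: `P(T > 3 r L p^(-(r-1))) ≤ 1000 / L^3` for
`256 ≤ L ≤ p^(-1/2)`; so `P(T ≤ t) → 1` for every `t ≫ p^(-(r-1))`, and the answer to Q1 is no for
every `r ≥ 3`.  The definitions are in `Pool/Agent/Q287/LG/Defs.lean`.
-/

open MeasureTheory Filter Topology Q287.LG

set_option autoImplicit false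

namespace Pool.Agent.Results.MP_383407_pr.OccupationTime

lemma sub_event {r ρ s : ℕ} {t : ℝ} (h : (s : ℝ) ≤ t) :
    {ω : ℤ × ℤ → Bool | ((0, 0) : ℤ × ℤ) ∈ occ r ρ (init ω) s} ⊆
      {ω | ∃ s : ℕ, T r ρ (init ω) = (s : ℕ∞) ∧ (s : ℝ) ≤ t} := by
  intro ω hω
  have h1 : T r ρ (init ω) ≤ (s : ℕ∞) := sInf_le ⟨s, rfl, hω⟩
  obtain ⟨n, hn⟩ := ENat.ne_top_iff_exists.1 (ne_top_of_le_ne_top (ENat.natCast_ne_top s) h1)
  refine ⟨n, hn.symm, ?_⟩
  rw [← hn] at h1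
  have h2 : n ≤ s := by exact_mod_cast h1
  have h3 : (n : ℝ) ≤ s := by exact_mod_cast h2
  linarith

lemma fact {p : ℝ} (hp : 0 < p) (hp1 : p ≤ 1) : Fact (0 ≤ p ∧ p ≤ 1) := ⟨hp.le, hp1⟩

lemma bound {r ρ : ℕ} (hr : 3 ≤ r) (hρ : r ≤ ρ) {p L t : ℝ} (hp : 0 < p) (hL : 256 ≤ L)
    (hpL : L ^ 2 * p ≤ 1) (ht : 3 * r * L / p ^ (r - 1) ≤ t) :
    1 - 1000 / L ^ 3 ≤ probT r ρ p t := by
  obtain ⟨s, hs, h⟩ := quant hr hρ hp hL hpL
  have hp1 : p ≤ 1 := by nlinarith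
  have := fact hp hp1
  exact h.trans (measureReal_mono (sub_event (hs.trans ht)))

lemma le_one {r ρ : ℕ} {p t : ℝ} (hp : 0 < p) (hp1 : p ≤ 1) : probT r ρ p t ≤ 1 := by
  have := fact hp hp1
  exact measureReal_le_one

lemma tendsto_one {r ρ : ℕ} (hr : 3 ≤ r) (hρ : r ≤ ρ) (t : ℝ → ℝ)
    (ht : Tendsto (fun p => t p * p ^ (r - 1)) (𝓝[>] 0) atTop) :
    Tendsto (fun p => probT r ρ p (t p)) (𝓝[>] 0) (𝓝 1) := by
  have hr0 : (0 : ℝ) < r := by exact_mod_cast (by omega : 0 < r)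
  rw [tendsto_order]
  constructor
  · intro a ha
    -- choose `L`
    obtain ⟨L, hL, hLa⟩ : ∃ L : ℝ, 256 ≤ L ∧ a < 1 - 1000 / L ^ 3 := by
      refine ⟨max 256 (2000 / (1 - a)), le_max_left _ _, ?_⟩
      set L := max 256 (2000 / (1 - a)) with hLdef
      have h1 : 256 ≤ L := le_max_left _ _
      have h2 : 2000 / (1 - a) ≤ L := le_max_right _ _
      have h3 : 0 < 1 - a := by linarith
      rw [div_le_iff₀ h3] at h2
      have h4 : 1000 / L ^ 3 ≤ 1000 / L := by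
        apply div_le_div_of_nonneg_left (by norm_num) (by linarith)
        exact le_self_pow₀ (by linarith) (by norm_num)
      have h5 : 1000 / L < 1 - a := by
        rw [div_lt_iff₀ (by linarith)]
        linarith
      linarith
    have h1 := ht.eventually_ge_atTop (3 * r * L)
    have h2 : ∀ᶠ p : ℝ in 𝓝[>] 0, p < 1 / L ^ 2 :=
      eventually_nhdsWithin_of_eventually_nhds (Iio_mem_nhds (by positivity))
    filter_upwards [h1, h2, self_mem_nhdsWithin] with p h3 h4 h5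
    have hp : 0 < p := h5
    refine lt_of_lt_of_le hLa (bound hr hρ hp hL ?_ ?_)
    · rw [lt_div_iff₀ (by positivity)] at h4
      linarith
    · rw [div_le_iff₀ (by positivity)]
      exact h3
  · intro a ha
    have h2 : ∀ᶠ p : ℝ in 𝓝[>] 0, p < 1 :=
      eventually_nhdsWithin_of_eventually_nhds (Iio_mem_nhds (by norm_num))
    filter_upwards [h2, self_mem_nhdsWithin] with p h4 h5
    exact lt_of_le_of_lt (le_one h5 h4.le) ha

/-- **Main theorem.**  (1) The explicit bound; (2) `P(T ≤ t) → 1` for every `t ≫ p^(-(r-1))`;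
(3) the statement of Q1 is false. -/
theorem result : ∀ r : ℕ, 3 ≤ r → ∀ ρ : ℕ, r ≤ ρ →
    (∀ p L : ℝ, 0 < p → 256 ≤ L → L ^ 2 * p ≤ 1 →
      1 - 1000 / L ^ 3 ≤ probT r ρ p (3 * r * L / p ^ (r - 1))) ∧
    (∀ t : ℝ → ℝ, Tendsto (fun p => t p / (1 / p) ^ (r - 1)) (𝓝[>] 0) atTop →
      Tendsto (fun p => probT r ρ p (t p)) (𝓝[>] 0) (𝓝 1)) ∧
    ¬ (∀ t : ℝ → ℝ,
      Tendsto (fun p => t p / ((1 / p) ^ (r - 1) * Real.log (1 / p))) (𝓝[>] 0) (𝓝 0) →
      Tendsto (fun p => probT r ρ p (t p)) (𝓝[>] 0) (𝓝 0)) := by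
  intro r hr ρ hρ
  have key : ∀ t : ℝ → ℝ, Tendsto (fun p => t p / (1 / p) ^ (r - 1)) (𝓝[>] 0) atTop →
      Tendsto (fun p => probT r ρ p (t p)) (𝓝[>] 0) (𝓝 1) := by
    intro t ht
    apply tendsto_one hr hρ
    refine ht.congr' ?_
    filter_upwards [self_mem_nhdsWithin] with p hp
    have hp' : (0 : ℝ) < p := hp
    rw [one_div_pow, div_div_eq_mul_div, div_one]
  refine ⟨fun p L hp hL hpL => bound hr hρ hp hL hpL le_rfl, key, ?_⟩
  intro hQ
  have hlog : Tendsto (fun p : ℝ => Real.log (1 / p)) (𝓝[>] 0) atTop := by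
    have h : Tendsto (fun p : ℝ => 1 / p) (𝓝[>] 0) atTop := by
      refine tendsto_inv_nhdsGT_zero.congr (fun p => ?_)
      rw [one_div]
    exact Real.tendsto_log_atTop.comp h
  have hsqrt : Tendsto (fun p : ℝ => Real.sqrt (Real.log (1 / p))) (𝓝[>] 0) atTop :=
    Real.tendsto_sqrt_atTop.comp hlog
  have h1 := key (fun p => (1 / p) ^ (r - 1) * Real.sqrt (Real.log (1 / p))) (by
    refine hsqrt.congr' ?_
    filter_upwards [self_mem_nhdsWithin] with p hp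
    have hp' : (0 : ℝ) < p := hp
    field_simp)
  have h2 := hQ (fun p => (1 / p) ^ (r - 1) * Real.sqrt (Real.log (1 / p))) (by
    refine (tendsto_inv_atTop_zero.comp hsqrt).congr' ?_
    filter_upwards [self_mem_nhdsWithin, hlog.eventually_gt_atTop 0] with p hp hl
    have hp' : (0 : ℝ) < p := hp
    have h3 : 0 < Real.sqrt (Real.log (1 / p)) := Real.sqrt_pos.2 hl
    have h4 : Real.log (1 / p) = Real.sqrt (Real.log (1 / p)) * Real.sqrt (Real.log (1 / p)) :=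
      (Real.mul_self_sqrt hl.le).symm
    change (Real.sqrt (Real.log (1 / p)))⁻¹ = _
    rw [mul_div_mul_left _ _ (by positivity), eq_div_iff hl.ne']
    nth_rewrite 2 [h4]
    rw [← mul_assoc, inv_mul_cancel₀ h3.ne', one_mul])
  exact one_ne_zero (tendsto_nhds_unique h1 h2)

end Pool.Agent.Results.MP_383407_pr.OccupationTime
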